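import Pool.Agent.Helper14.AY.GoalsA

/-! # HS, packet AY-CVH: bounds for kernels with integral zero -/

open Complex Metric Set Filter Topology MeasureTheory
open scoped ContDiff ComplexConjugate NNReal

namespace Pool.Agent.Helper91.AY

open Pool.Agent.Helper14.AY Pool.Agent.Helper95.Lin Pool.Agent.Helper57.HS

variable {n : ℕ}

theorem int_cv {k F : Cn n → ℝ} (hk : TF k) (hF : Continuous F) (r : ℝ) (x : Cn n) :
    Integrable fun y => F (x - r • y) * k y := by
  refine Continuous.integrable_of_hasCompactSupport ?_ hk.2.mul_left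
  exact (hF.comp (by fun_prop)).mul hk.1.continuous

theorem small_bound {Φ : Cn n → ℝ} {S : Set (Cn n)} {c : ℝ} (hS : IsCompact S)
    (h0 : ∀ y ∉ S, Φ y = 0) (hc : ∀ y ∈ S, |Φ y| ≤ c) :
    |∫ y, Φ y| ≤ c * volume.real S := by
  rw [← setIntegral_eq_integral_of_forall_compl_eq_zero h0]
  have h1 : ∀ y ∈ S, ‖Φ y‖ ≤ c := fun y hy => hc y hy
  exact norm_setIntegral_le_of_norm_le_const hS.measure_lt_top h1

theorem cvh : S_CVH := by
  intro n k a hk hk0 ha ha1
  obtain ⟨L, hL⟩ := ContDiff.lipschitzWith_of_hasCompactSupport hk.2 hk.1 (by simp)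
  obtain ⟨ρ₀, hρ₀⟩ := hk.2.isCompact.isBounded.subset_closedBall 0
  set ρ := max ρ₀ 0 with hρdef
  have hρ0 : 0 ≤ ρ := le_max_right _ _
  have hsupp : ∀ y, ρ < ‖y‖ → k y = 0 := by
    intro y hy
    by_contra h
    have h1 := hρ₀ (subset_tsupport k h)
    rw [mem_closedBall_zero_iff] at h1
    exact absurd (h1.trans (le_max_left _ _)) (not_le.2 hy)
  obtain ⟨B, hB⟩ := hk.2.exists_bound_of_continuous hk.1.continuous
  have hB0 : 0 ≤ B := (norm_nonneg _).trans (hB 0)
  set V := volume.real (closedBall (0 : Cn n) (ρ + 1)) with hV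
  have hV0 : 0 ≤ V := measureReal_nonneg
  set C := (ρ + 1) ^ a * (B + L) * V + 1 with hC
  have hra : 0 ≤ (ρ + 1) ^ a := Real.rpow_nonneg (by linarith) a
  have hCpos : 0 < C := by positivity
  refine ⟨C, hCpos, ?_⟩
  intro F M hF hM hH
  have hrpow : ∀ (r : ℝ) (y : Cn n), 0 < r → ‖y‖ ≤ ρ + 1 → ∀ x : Cn n,
      |F (x - r • y) - F x| ≤ M * (r ^ a * (ρ + 1) ^ a) := by
    intro r y hr hy x
    have h1 := hH (x - r • y) (mem_univ _) x (mem_univ _)
    have h2 : ‖x - r • y - x‖ ≤ r * (ρ + 1) := by
      rw [sub_sub_cancel_left, norm_neg, norm_smul, Real.norm_of_nonneg hr.le]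
      exact mul_le_mul_of_nonneg_left hy hr.le
    calc |F (x - r • y) - F x| ≤ M * ‖x - r • y - x‖ ^ a := h1
      _ ≤ M * (r * (ρ + 1)) ^ a :=
          mul_le_mul_of_nonneg_left (Real.rpow_le_rpow (norm_nonneg _) h2 ha.le) hM
      _ = _ := by rw [Real.mul_rpow hr.le (by linarith)]
  constructor
  · intro r x hr
    have hra' : 0 < r ^ a := Real.rpow_pos_of_pos hr a
    have e1 : Cv k F r x = ∫ y, (F (x - r • y) - F x) * k y := by
      unfold Cv
      have i1 := int_cv hk hF r x
      have i2 : Integrable fun y => F x * k y :=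
        (hk.1.continuous.integrable_of_hasCompactSupport hk.2).const_mul _
      simp_rw [sub_mul]
      rw [integral_sub i1 i2, integral_const_mul, hk0, mul_zero, sub_zero]
    rw [e1]
    have h2 := small_bound (S := closedBall (0 : Cn n) (ρ + 1))
      (Φ := fun y => (F (x - r • y) - F x) * k y) (c := M * (r ^ a * (ρ + 1) ^ a) * B)
      (isCompact_closedBall _ _)
      (fun y hy => by
        rw [mem_closedBall_zero_iff, not_le] at hy
        rw [hsupp y (by linarith), mul_zero])
      (fun y hy => by
        rw [mem_closedBall_zero_iff] at hy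
        rw [abs_mul]
        exact mul_le_mul (hrpow r y hr hy x) (hB y) (abs_nonneg _) (by positivity))
    refine h2.trans ?_
    rw [← hV]
    have h3 : M * (r ^ a * (ρ + 1) ^ a) * B * V = (M * r ^ a) * ((ρ + 1) ^ a * B * V) := by ring
    have h4 : C * M * r ^ a = (M * r ^ a) * C := by ring
    rw [h3, h4]
    apply mul_le_mul_of_nonneg_left _ (by positivity)
    rw [hC]
    have h5 : 0 ≤ (ρ + 1) ^ a * L * V := by positivity
    nlinarith
  · intro r x x' hr hxx
    have hra' : 0 < r ^ a := Real.rpow_pos_of_pos hr a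
    set η : Cn n := r⁻¹ • (x - x') with hη
    have hηn : ‖η‖ = ‖x - x'‖ / r := by
      rw [hη, norm_smul, norm_inv, Real.norm_of_nonneg hr.le]
      field_simp
    have hη1 : ‖η‖ ≤ 1 := by
      rw [hηn, div_le_one hr]; exact hxx
    have hrη : r • η = x - x' := by
      rw [hη, smul_smul, mul_inv_cancel₀ hr.ne', one_smul]
    have e1 : Cv k F r x = ∫ y, F (x' - r • y) * k (y + η) := by
      unfold Cv
      rw [← integral_add_right_eq_self (μ := volume) (fun y => F (x - r • y) * k y) η]
      congr 1
      funext y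
      congr 2
      rw [smul_add, hrη]
      abel
    have hkη : HasCompactSupport fun y => k (y + η) :=
      hk.2.comp_homeomorph (Homeomorph.addRight η)
    have ckη : Continuous fun y => k (y + η) := hk.1.continuous.comp (by fun_prop)
    have i1 : Integrable fun y => F (x' - r • y) * k (y + η) := by
      refine Continuous.integrable_of_hasCompactSupport ?_ hkη.mul_left
      exact (hF.comp (by fun_prop)).mul ckη
    have i2 := int_cv hk hF r x'
    have i3 : Integrable fun y => k (y + η) := ckη.integrable_of_hasCompactSupport hkη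
    have i4 : Integrable k := hk.1.continuous.integrable_of_hasCompactSupport hk.2
    have e2 : Cv k F r x - Cv k F r x' =
        ∫ y, (F (x' - r • y) - F x') * (k (y + η) - k y) := by
      rw [e1]
      unfold Cv
      have e3 : ∀ y, (F (x' - r • y) - F x') * (k (y + η) - k y) =
          (F (x' - r • y) * k (y + η) - F (x' - r • y) * k y) - F x' * (k (y + η) - k y) := by
        intro y; ring
      simp_rw [e3]
      rw [integral_sub (f := fun y => F (x' - r • y) * k (y + η) - F (x' - r • y) * k y)
        (g := fun y => F x' * (k (y + η) - k y)) (i1.sub i2) ((i3.sub i4).const_mul _),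
        integral_sub i1 i2, integral_const_mul, integral_sub i3 i4, integral_add_right_eq_self (μ := volume) k η, hk0]
      ring
    rw [e2]
    have h2 := small_bound (S := closedBall (0 : Cn n) (ρ + 1))
      (Φ := fun y => (F (x' - r • y) - F x') * (k (y + η) - k y))
      (c := M * (r ^ a * (ρ + 1) ^ a) * (L * ‖η‖))
      (isCompact_closedBall _ _)
      (fun y hy => by
        rw [mem_closedBall_zero_iff, not_le] at hy
        have h3 : ρ < ‖y + η‖ := by
          have h4 : ‖y‖ ≤ ‖y + η‖ + ‖η‖ := by
            calc ‖y‖ = ‖(y + η) - η‖ := by rw [add_sub_cancel_right]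
              _ ≤ _ := norm_sub_le _ _
          linarith
        rw [hsupp y (by linarith), hsupp _ h3, sub_zero, mul_zero])
      (fun y hy => by
        rw [mem_closedBall_zero_iff] at hy
        rw [abs_mul]
        refine mul_le_mul (hrpow r y hr hy x') ?_ (abs_nonneg _) (by positivity)
        have h3 := hL.norm_sub_le (y + η) y
        rw [add_sub_cancel_left] at h3
        exact h3)
    refine h2.trans ?_
    rw [← hV, hηn]
    have h3 : M * (r ^ a * (ρ + 1) ^ a) * (L * (‖x - x'‖ / r)) * V =
        (M * ‖x - x'‖ * r ^ (a - 1)) * ((ρ + 1) ^ a * L * V) := by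
      rw [Real.rpow_sub_one hr.ne']
      field_simp
    have h4 : C * M * ‖x - x'‖ * r ^ (a - 1) = (M * ‖x - x'‖ * r ^ (a - 1)) * C := by ring
    rw [h3, h4]
    have h6 : 0 < r ^ (a - 1) := Real.rpow_pos_of_pos hr _
    apply mul_le_mul_of_nonneg_left _ (by positivity)
    rw [hC]
    have h5 : 0 ≤ (ρ + 1) ^ a * B * V := by positivity
    nlinarith

end Pool.Agent.Helper91.AY
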