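import Pool.Agent.Helper14.AY.GoalsA

/-! # HS, packet AY-GSI: integration of the bounds -/

open Complex Metric Set Filter Topology MeasureTheory
open scoped ContDiff ComplexConjugate

namespace Pool.Agent.Helper91.AY

open Pool.Agent.Helper14.AY

theorem cmp {g g' B B' : ℝ → ℝ} {p q : ℝ} (hpq : p ≤ q)
    (hg : ∀ r ∈ Icc p q, HasDerivAt g (g' r) r) (hB : ∀ r ∈ Icc p q, HasDerivAt B (B' r) r)
    (hle : ∀ r ∈ Icc p q, |g' r| ≤ B' r) : |g q - g p| ≤ B q - B p := by
  have key : ∀ s : ℝ, |s| = 1 → s * (g q - g p) ≤ B q - B p := by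
    intro s hs
    have hm : MonotoneOn (fun r => B r - s * g r) (Icc p q) := by
      have hd : ∀ r ∈ Icc p q, HasDerivAt (fun r => B r - s * g r) (B' r - s * g' r) r :=
        fun r hr => (hB r hr).sub ((hg r hr).const_mul s)
      refine monotoneOn_of_deriv_nonneg (convex_Icc p q)
        (fun r hr => (hd r hr).continuousAt.continuousWithinAt)
        (fun r hr => (hd r (interior_subset hr)).differentiableAt.differentiableWithinAt) ?_
      intro r hr
      rw [(hd r (interior_subset hr)).deriv]
      have h1 := hle r (interior_subset hr)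
      have h2 : s * g' r ≤ |s * g' r| := le_abs_self _
      rw [abs_mul, hs, one_mul] at h2
      linarith
    have := hm (left_mem_Icc.2 hpq) (right_mem_Icc.2 hpq) hpq
    simp only at this
    linarith
  rw [abs_le]
  constructor
  · have := key (-1) (by norm_num)
    linarith
  · have := key 1 (by norm_num)
    linarith

theorem gsi : S_GSI := by
  intro a c h l g g' ha ha1 hc hh hg hb1 hb2 hl h0
  have ha1' : 0 < 1 - a := by linarith
  have hhp : 0 < h ^ a := Real.rpow_pos_of_pos hh a
  -- first part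
  have e1 : ∀ ρ, 0 < ρ → ρ ≤ h → |g h - g ρ| ≤ 2 * c / a * h ^ a := by
    intro ρ hρ hρh
    have h1 := cmp (B := fun r => 2 * c / a * r ^ a) (B' := fun r => 2 * c * r ^ (a - 1)) hρh
      (fun r hr => hg r (lt_of_lt_of_le hρ hr.1))
      (fun r hr => by
        have hr0 : r ≠ 0 := (lt_of_lt_of_le hρ hr.1).ne'
        have h2 := (Real.hasDerivAt_rpow_const (p := a) (Or.inl hr0)).const_mul (2 * c / a)
        exact h2.congr_deriv (by field_simp))
      (fun r hr => hb1 r (lt_of_lt_of_le hρ hr.1))
    have h3 : 0 ≤ 2 * c / a * ρ ^ a := by positivity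
    linarith
  -- second part
  have e2 : ∀ R, h ≤ R → |g R - g h| ≤ c / (1 - a) * h ^ a := by
    intro R hR
    have h1 := cmp (B := fun r => - (c * h / (1 - a)) * r ^ (a - 1))
      (B' := fun r => c * h * r ^ (a - 2)) hR
      (fun r hr => hg r (lt_of_lt_of_le hh hr.1))
      (fun r hr => by
        have hr0 : r ≠ 0 := (lt_of_lt_of_le hh hr.1).ne'
        have h2 := (Real.hasDerivAt_rpow_const (p := a - 1) (Or.inl hr0)).const_mul
          (- (c * h / (1 - a)))
        refine h2.congr_deriv ?_
        rw [show a - 1 - 1 = a - 2 by ring]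
        field_simp
        ring)
      (fun r hr => hb2 r hr.1)
    have hRp : 0 < R := lt_of_lt_of_le hh hR
    have h3 : 0 ≤ c * h / (1 - a) * R ^ (a - 1) := by positivity
    have h4 : c * h / (1 - a) * h ^ (a - 1) = c / (1 - a) * h ^ a := by
      rw [Real.rpow_sub_one hh.ne']
      field_simp
    linarith
  have f1 : |g h| ≤ c / (1 - a) * h ^ a := by
    have ht : Tendsto (fun R => |g R - g h|) atTop (𝓝 |0 - g h|) :=
      (h0.sub tendsto_const_nhds).abs
    have := le_of_tendsto ht (eventually_atTop.2 ⟨h, fun R hR => e2 R hR⟩)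
    rwa [zero_sub, abs_neg] at this
  have f2 : |g h - l| ≤ 2 * c / a * h ^ a := by
    have ht : Tendsto (fun ρ => |g h - g ρ|) (𝓝[>] 0) (𝓝 |g h - l|) :=
      (tendsto_const_nhds.sub hl).abs
    refine le_of_tendsto ht ?_
    filter_upwards [Ioc_mem_nhdsGT hh] with ρ hρ using e1 ρ hρ.1 hρ.2
  have f3 : |l| ≤ |g h| + |g h - l| := by
    have h1 : l = g h - (g h - l) := by ring
    calc |l| = |g h - (g h - l)| := by rw [← h1]
      _ ≤ _ := abs_sub _ _
  calc |l| ≤ c / (1 - a) * h ^ a + 2 * c / a * h ^ a := by linarith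
    _ = _ := by ring

end Pool.Agent.Helper91.AY
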